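import Pool.Agent.W601.SQ.Stm

set_option autoImplicit false
open scoped Classical Cardinal
open Filter Topology

namespace Pool.Agent.W372.SQ

open Pool.Agent.W601.SQ

theorem subs : S_SUBA → S_SUBB1 → S_SUBB2 → S_SUBC1 → S_SUBC2 → S_SUBS := by
  intro hA hB1 hB2 hC1 hC2 s hs
  obtain ⟨φ, hφ, hd⟩ := hA s
  by_cases h : ∃ a, Tendsto (fun j => |s (φ j) a|) atTop atTop
  · obtain ⟨ψ, hψ, hk⟩ := hB1 (fun j => s (φ j)) hd h
    exact ⟨fun j => φ (ψ j), hφ.comp hψ, fun J => hC1 _ hk J⟩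
  · have h' : ∀ β, ∃ c : ℤ, ∀ᶠ j in atTop, s (φ j) β = c :=
      fun β => (hd β).resolve_right (fun hh => h ⟨β, hh⟩)
    obtain ⟨ψ, hψ, hk⟩ := hB2 (fun j => s (φ j)) (hs.comp hφ.injective) h'
    exact ⟨fun j => φ (ψ j), hφ.comp hψ, fun J => hC2 _ hk J⟩

end Pool.Agent.W372.SQ
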